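import Pool.Agent.MP_3ce0a0_al.H79.XS
import Pool.Agent.MP_3ce0a0_al.H79.XJ

/-
The eigenspaces of the majority signs when these are not trivial.
-/

namespace Pool.Agent.MP_3ce0a0_al.H9

open Equiv Module Finset Pool.Agent.MP_3ce0a0_al.H62.Inst Pool.Agent.MP_3ce0a0_al.H79.X

variable {ι H : Type} [DecidableEq ι] [AddCommGroup H] [Module ℂ H] {D : ι → End ℂ H}
  {u u' : End ℂ H} {f b : ι}

/-- `u` multiplies the sign at `f` by the sign at `b`. -/
def Mv (D : ι → End ℂ H) (u : End ℂ H) (f b : ι) : Prop :=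
  (∀ x, x ≠ f → Commute (D x) u) ∧ u * D f = D f * D b * u

omit [DecidableEq ι] in
lemma Mv.swap (h : Mv D u f b) (hb : b ≠ f) (h2 : D b * D b = 1) :
    u * (D f * D b) = D f * u := by
  rw [← mul_assoc, h.2, mul_assoc, ← (h.1 b hb).eq, mul_assoc, ← mul_assoc (D b), h2, one_mul]

omit [DecidableEq ι] in
lemma Mv.inv (h : Mv D u f b) (hb : b ≠ f) (h2 : D b * D b = 1) (e : u * u' = 1)
    (e' : u' * u = 1) : Mv D u' f b := by
  refine ⟨fun x hx => ?_, ?_⟩
  · calc D x * u' = u' * u * D x * u' := by rw [e', one_mul]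
      _ = u' * D x * (u * u') := by rw [mul_assoc u', ← (h.1 x hx).eq]; simp only [mul_assoc]
      _ = u' * D x := by rw [e, mul_one]
  · calc u' * D f = u' * (D f * u) * u' := by rw [mul_assoc, mul_assoc, e, mul_one]
      _ = D f * D b * u' := by rw [← h.swap hb h2, ← mul_assoc, e', one_mul]

omit [DecidableEq ι] in
lemma Mv.mul (h : Mv D u f b) (h' : Mv D u' f b) (hb : b ≠ f) (h2 : D b * D b = 1) (x : ι) :
    Commute (u * u') (D x) := by
  by_cases hx : x = f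
  · subst hx
    change u * u' * D x = D x * (u * u')
    rw [mul_assoc, h'.2, ← mul_assoc, h.swap hb h2, mul_assoc]
  · exact ((h.1 x hx).mul_right (h'.1 x hx)).symm

lemma comm_apply (h : Commute u u') (v : H) : u (u' v) = u' (u v) :=
  LinearMap.congr_fun h.eq v

section fin
variable [Fintype ι]

lemma Mv.mem_in (h : Mv D u f b) (hb : b ≠ f) {B : Finset ι} (hB : b ∈ B) {v : H}
    (hv : v ∈ JE D univ B) : u v ∈ JE D univ (symmDiff B {f}) := by
  rw [mem_JE] at hv ⊢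
  intro x _
  by_cases hx : x = f
  · subst hx
    have e1 : D b (u v) = -u v := by
      rw [comm_apply (h.1 b hb), hv b (mem_univ _), if_pos hB, map_neg]
    have e2 : u (D x v) = D x (D b (u v)) := LinearMap.congr_fun h.2 v
    rw [e1, map_neg, hv x (mem_univ _)] at e2
    by_cases hf : x ∈ B
    · rw [if_pos hf, map_neg, neg_inj] at e2
      rw [if_neg (by simp [mem_symmDiff, hf]), ← e2]
    · rw [if_neg hf] at e2
      rw [if_pos (by simp [mem_symmDiff, hf])]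
      exact (neg_eq_iff_eq_neg.1 e2.symm)
  · rw [comm_apply (h.1 x hx), hv x (mem_univ _)]
    by_cases hf : x ∈ B <;> simp [mem_symmDiff, hf, hx]

lemma Mv.mem_out (h : Mv D u f b) (hb : b ≠ f) {B : Finset ι} (hB : b ∉ B) :
    Keeps u (JE D univ B) := by
  intro v hv
  rw [mem_JE] at hv ⊢
  intro x _
  by_cases hx : x = f
  · subst hx
    have e1 : D b (u v) = u v := by
      rw [comm_apply (h.1 b hb), hv b (mem_univ _), if_neg hB]
    have e2 : u (D x v) = D x (D b (u v)) := LinearMap.congr_fun h.2 v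
    rw [e1, hv x (mem_univ _)] at e2
    rw [← e2]
    split_ifs <;> simp
  · rw [comm_apply (h.1 x hx), hv x (mem_univ _)]
    split_ifs <;> simp

omit [Fintype ι] in
lemma const_of_move (g : Finset ι → ℕ) (b : ι)
    (h : ∀ B f, b ∈ B → b ≠ f → g B ≤ g (symmDiff B {f})) (B : Finset ι) (hB : b ∈ B) :
    g B = g {b} := by
  have h' : ∀ B f, b ∈ B → b ≠ f → g (symmDiff B {f}) = g B := fun B f hB hf =>
    le_antisymm (by
      simpa using h (symmDiff B {f}) f (by simp [mem_symmDiff, hB, hf]) hf) (h B f hB hf)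
  have key : ∀ C : Finset ι, b ∉ C → g (insert b C) = g {b} := by
    intro C
    induction C using Finset.induction_on with
    | empty => simp
    | insert f C hf ih =>
      intro hb
      rw [mem_insert, not_or] at hb
      rw [← ih hb.2, ← h' (insert b C) f (mem_insert_self _ _) hb.1]
      congr 1
      ext x
      by_cases hx : x = f
      · subst hx
        simp [mem_symmDiff, hf, Ne.symm hb.1]
      · simp [mem_symmDiff, hx]
  rw [← key (B.erase b) (notMem_erase _ _), insert_erase hB]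

lemma JE_le_neg {B : Finset ι} (hB : b ∈ B) : JE D univ B ≤ End.eigenspace (D b) (-1) := by
  intro v hv
  rw [End.mem_eigenspace_iff, mem_JE.1 hv b (mem_univ _), if_pos hB, neg_one_smul]

lemma rank_le {P Q : Submodule ℂ H} [FiniteDimensional ℂ H] (e : u' * u = 1)
    (h : ∀ v ∈ P, u v ∈ Q) : finrank ℂ P ≤ finrank ℂ Q := by
  rw [← finrank_map_unit (Q := P) e]
  exact Submodule.finrank_mono (by rintro _ ⟨v, hv, rfl⟩; exact h v hv)

lemma split_rank [FiniteDimensional ℂ H] (h1 : ∀ a, D a * D a = 1) (h2 : ∀ a c, Commute (D a) (D c))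
    {Q : Submodule ℂ H} (h3 : ∀ a, Keeps (D a) Q) (h4 : Q ≤ End.eigenspace (D b) (-1)) (g : ℕ)
    (h5 : ∀ B, b ∈ B → finrank ℂ (Q ⊓ JE D univ B : Submodule ℂ H) = g) :
    finrank ℂ Q = g * 2 ^ (Fintype.card ι - 1) := by
  rw [← JE_sum (x := D) (S := univ) (fun a _ v _ => LinearMap.congr_fun (h1 a) v)
    (fun a _ c _ v _ => comm_apply (h2 a c) v) fun a _ => h3 a]
  have e : ∀ B ∈ (univ : Finset ι).powerset, finrank ℂ (Q ⊓ JE D univ B : Submodule ℂ H) =
      if b ∈ B then g else 0 := by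
    intro B _
    split_ifs with hB
    · exact h5 B hB
    · rw [Submodule.finrank_eq_zero, eq_bot_iff]
      rintro v ⟨hv, hv'⟩
      have e1 := End.mem_eigenspace_iff.1 (h4 hv)
      rw [mem_JE.1 hv' b (mem_univ _), if_neg hB, neg_one_smul, eq_neg_iff_add_eq_zero,
        ← two_smul ℂ] at e1
      simpa using e1
  rw [sum_congr rfl e, ← sum_filter, sum_const, smul_eq_mul, mul_comm]
  congr 1
  have : (univ : Finset ι).powerset.filter (b ∈ ·) =
      (univ.erase b).powerset.image (insert b) := by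
    ext B
    simp only [mem_filter, mem_powerset, subset_univ, true_and, mem_image]
    refine ⟨fun hB => ⟨B.erase b, erase_subset_erase _ (subset_univ _), insert_erase hB⟩, ?_⟩
    rintro ⟨C, -, rfl⟩
    exact mem_insert_self _ _
  rw [this, card_image_of_injOn, card_powerset, card_erase_of_mem (mem_univ _), card_univ]
  intro B hB C hC e
  have k : ∀ B ∈ (univ.erase b).powerset, b ∉ B := fun B hB h => by
    simpa using mem_powerset.1 hB h
  rw [← erase_insert (k B hB), e, erase_insert (k C hC)]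

variable {r : Rep ι H}

omit [DecidableEq ι] [Fintype ι] in
lemma r_inv (r : Rep ι H) (α : A ι) : r α * r α⁻¹ = 1 := by rw [← map_mul, mul_inv_cancel, map_one]

omit [DecidableEq ι] [Fintype ι] in
lemma r_inv' (r : Rep ι H) (α : A ι) : r α⁻¹ * r α = 1 := by rw [← map_mul, inv_mul_cancel, map_one]

omit [DecidableEq ι] [Fintype ι] in
lemma r_mul (r : Rep ι H) (α β : A ι) (v : H) : r (α * β) v = r α (r β v) := by
  rw [map_mul, End.mul_apply]

omit [DecidableEq ι] [Fintype ι] in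
lemma r_ii (r : Rep ι H) (α : A ι) (v : H) : r α (r α⁻¹ v) = v := by
  rw [← r_mul, mul_inv_cancel, map_one, End.one_apply]

omit [DecidableEq ι] [Fintype ι] in
lemma r_ii' (r : Rep ι H) (α : A ι) (v : H) : r α⁻¹ (r α v) = v := by
  rw [← r_mul, inv_mul_cancel, map_one, End.one_apply]

omit [Fintype ι] in
lemma mv_rh (h4 : D4 r D) (hb : b ≠ f) : Mv D (r (rh f b)) f b :=
  ⟨fun x hx => (h4.2.1 f x b hb.symm hx.symm).1, (h4.2.2 f b hb.symm).1⟩

omit [Fintype ι] in
lemma mv_la (h4 : D4 r D) (hb : b ≠ f) : Mv D (r (la f b)) f b :=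
  ⟨fun x hx => (h4.2.1 f x b hb.symm hx.symm).2, (h4.2.2 f b hb.symm).2⟩

omit [Fintype ι] in
lemma mv_rh' (h1 : ∀ a, D a * D a = 1) (h4 : D4 r D) (hb : b ≠ f) : Mv D (r (rh f b)⁻¹) f b :=
  (mv_rh h4 hb).inv hb (h1 b) (r_inv r _) (r_inv' r _)

omit [Fintype ι] in
lemma mv_la' (h1 : ∀ a, D a * D a = 1) (h4 : D4 r D) (hb : b ≠ f) : Mv D (r (la f b)⁻¹) f b :=
  (mv_la h4 hb).inv hb (h1 b) (r_inv r _) (r_inv' r _)

omit [Fintype ι] in
lemma kk_D (h1 : ∀ a, D a * D a = 1) (h4 : D4 r D) (hb : b ≠ f) (x : ι) :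
    Commute (r (kk f b)) (D x) := by
  rw [kk, map_mul]
  exact (mv_rh h4 hb).mul (mv_la' h1 h4 hb) hb (h1 b) x

omit [Fintype ι] in
lemma rh_kk {e : ι} (he : e ≠ b) (hf : f ≠ b) : Commute (rh f b) (kk e b) := by
  refine Commute.mul_right ?_ ((N0 ι).ρ_lam f b e b hf he hf he).inv_right
  by_cases h : f = e
  · exact h ▸ Commute.refl _
  · exact (N0 ι).ρ_ρ f b e b hf he h hf he

variable [FiniteDimensional ℂ H]

lemma dim_eq (h4 : D4 r D) {B : Finset ι} (hB : b ∈ B) :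
    finrank ℂ (JE D univ B) = finrank ℂ (JE D univ {b}) :=
  const_of_move (fun B => finrank ℂ (JE D univ B)) b
    (fun _ f hB hf => rank_le (r_inv' r (rh f b)) fun _ hv => (mv_rh h4 hf).mem_in hf hB hv) B hB

lemma nums (hn : 12 ≤ Fintype.card ι)
    (hd : finrank ℂ H ≤ (Fintype.card ι - 1) * 2 ^ Fintype.card ι) (hD : DD r D) (h4 : D4 r D)
    (hb : ∃ b, D b ≠ 1) : finrank ℂ (JE D univ ∅) < Fintype.card ι ∧
    (∀ c, finrank ℂ (JE D univ {c}) = Fintype.card ι - 1) ∧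
    (∀ b e, e ≠ b → finrank ℂ (End.eigenspace (D b) (-1) ⊓ (r (kk e b)).maxGenEigenspace 1 :
      Submodule ℂ H) = 2 ^ (Fintype.card ι - 1)) ∧
    ∀ b e, e ≠ b → ∀ v ∈ End.eigenspace (D b) (-1), r (rh e b) (r (rh e b) v) = v := by
  obtain ⟨h1, -, -, -, -, -, ν, hν⟩ := hD
  obtain ⟨b, hb⟩ := hb
  have e1 : ∀ c, finrank ℂ (JE D univ {c}) = ν * (Fintype.card ι - 1) := by
    intro c
    have := split_rank (b := c) h1 h4.1 (fun a => keeps_eig (h4.1 a c) (-1)) le_rfl _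
      fun B hB => by rw [inf_eq_right.2 (JE_le_neg hB), dim_eq h4 hB]
    rw [(hν c).1] at this
    exact (Nat.eq_of_mul_eq_mul_right (by positivity) this).symm
  have e2 : ν ≠ 0 := by
    rintro rfl
    have h0 := (hν b).1
    rw [zero_mul, zero_mul, Submodule.finrank_eq_zero] at h0
    refine hb (LinearMap.ext fun v => ?_)
    have : v - D b v ∈ End.eigenspace (D b) (-1) := by
      rw [End.mem_eigenspace_iff, map_sub, ← End.mul_apply, h1 b]
      simp
    rw [h0, Submodule.mem_bot, sub_eq_zero] at this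
    exact this.symm
  have e3 := JE_sum (x := D) (S := univ) (Q := ⊤) (fun a _ v _ => LinearMap.congr_fun (h1 a) v)
    (fun a _ c _ v _ => comm_apply (h4.1 a c) v) fun a _ _ _ => trivial
  rw [← add_sum_erase _ _ (empty_mem_powerset _), finrank_top, top_inf_eq,
    sum_congr rfl (g := fun _ => ν * (Fintype.card ι - 1)) fun B hB => by
      obtain ⟨c, hc⟩ := nonempty_iff_ne_empty.2 (ne_of_mem_erase hB)
      rw [top_inf_eq, dim_eq h4 hc, e1],
    sum_const, card_erase_of_mem (empty_mem_powerset _), card_powerset, card_univ,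
    smul_eq_mul] at e3
  rw [← e3] at hd
  have h2 : 2 ^ 2 ≤ 2 ^ Fintype.card ι := Nat.pow_le_pow_right (by norm_num) (by omega)
  obtain ⟨M, hM⟩ : ∃ M, 2 ^ Fintype.card ι = M + 1 := ⟨2 ^ Fintype.card ι - 1, by omega⟩
  obtain ⟨m, hm⟩ : ∃ m, Fintype.card ι = m + 1 := ⟨Fintype.card ι - 1, by omega⟩
  rw [hM] at hd h2
  have e4 : ν = 1 := by
    by_contra h
    have h3 : 2 ≤ ν := by omega
    rw [hm] at hd hn
    simp only [Nat.add_sub_cancel] at hd
    have : M * (2 * m) ≤ M * (ν * m) := by gcongr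
    nlinarith
  subst e4
  refine ⟨?_, fun c => by rw [e1, one_mul], fun b e he => by rw [(hν b).2.1 e he, one_mul],
    fun b => (hν b).2.2 rfl⟩
  rw [hm] at hd ⊢
  simp only [Nat.add_sub_cancel] at hd
  nlinarith

omit [Fintype ι] [FiniteDimensional ℂ H] in
lemma uni_rh (q : Quad r) {e : ι} (h : e ≠ b) : Uni (r (rh e b) ^ 2) := by
  rw [rh_eq h]
  exact q e {b} (by simp) (by simpa using h) _ (of_mem_FS (by simp))

omit [Fintype ι] [FiniteDimensional ℂ H] in
lemma ep_ep (r : Rep ι H) (a : ι) : r (ep a) * r (ep a) = 1 := by rw [← map_mul, ep_sq, map_one]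

omit [Fintype ι] [FiniteDimensional ℂ H] in
lemma ep_ep' (r : Rep ι H) (a : ι) (v : H) : r (ep a) (r (ep a) v) = v :=
  LinearMap.congr_fun (ep_ep r a) v

omit [Fintype ι] [FiniteDimensional ℂ H] in
lemma uni_kk (q : Quad r) {e : ι} (h : e ≠ b) : Uni (r (kk e b) ^ 2) := by
  have c : Commute (r (rh e b)) (r (la e b)⁻¹) := (commute_rh_la h h).inv_right.map r
  rw [kk, map_mul, c.mul_pow]
  refine (uni_rh q h).mul ?_ (c.pow_pow 2 2)
  have e1 : r (la e b)⁻¹ ^ 2 = r (ep e) * r (rh e b) ^ 2 * r (ep e) := by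
    have : (la e b)⁻¹ = ep e * rh e b * ep e := ((N0 ι).ε_left e b h).symm
    rw [this, map_mul, map_mul, sq, sq]
    simp only [mul_assoc]
    rw [← mul_assoc (r (ep e)) (r (ep e)), ep_ep, one_mul]
  rw [e1]
  exact (uni_rh q h).conj (ep_ep r e) (ep_ep r e)

omit [FiniteDimensional ℂ H] in
lemma uni_eig (h : Uni u) {v : H} {c : ℂ} (e : u v = c • v) (hv : v ≠ 0) : c = 1 := by
  by_contra hc
  exact hv ((h.on ⊤).eig trivial e hc)

omit [FiniteDimensional ℂ H] in
lemma eq_zero_of_neg {v : H} (h : v = -v) : v = 0 := by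
  rw [eq_neg_iff_add_eq_zero, ← two_smul ℂ] at h
  simpa using h

omit [FiniteDimensional ℂ H] in
lemma line_ne {L : Submodule ℂ H} (h : finrank ℂ L = 1) : ∃ v ∈ L, v ≠ 0 := by
  refine L.exists_mem_ne_zero_of_ne_bot ?_
  rintro rfl
  simp at h

omit [FiniteDimensional ℂ H] in
lemma line_scalar {L : Submodule ℂ H} (h : finrank ℂ L = 1) (k : Keeps u L) :
    ∃ c : ℂ, ∀ v ∈ L, u v = c • v := by
  obtain ⟨v, -, hv⟩ := finrank_eq_one_iff'.1 h
  obtain ⟨c, hc⟩ := hv ⟨u v, k v v.2⟩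
  refine ⟨c, fun w hw => ?_⟩
  obtain ⟨d, hd⟩ := hv ⟨w, hw⟩
  have e1 : c • (v : H) = u v := congrArg Subtype.val hc
  have e2 : d • (v : H) = w := congrArg Subtype.val hd
  rw [← e2, map_smul, ← e1, smul_comm]

/-- the facts used below. -/
structure Cx (r : Rep ι H) (D : ι → End ℂ H) : Prop where
  sg : SSg
  n : 12 ≤ Fintype.card ι
  q : Quad r
  dd : DD r D
  d4 : D4 r D
  dc : ∀ c, finrank ℂ (JE D univ {c}) = Fintype.card ι - 1
  dk : ∀ b e, e ≠ b → finrank ℂ (End.eigenspace (D b) (-1) ⊓ (r (kk e b)).maxGenEigenspace 1 :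
      Submodule ℂ H) = 2 ^ (Fintype.card ι - 1)
  rr : ∀ b e, e ≠ b → ∀ v ∈ End.eigenspace (D b) (-1), r (rh e b) (r (rh e b) v) = v

/-- the lines. -/
def Ln (r : Rep ι H) (D : ι → End ℂ H) (c e : ι) : Submodule ℂ H :=
  JE D univ {c} ⊓ End.eigenspace (r (kk e c)) 1

omit [FiniteDimensional ℂ H] in
lemma mem_Ln {c e : ι} {v : H} : v ∈ Ln r D c e ↔ v ∈ JE D univ {c} ∧ r (kk e c) v = v := by
  rw [Ln, Submodule.mem_inf, End.mem_eigenspace_iff, one_smul]

omit [FiniteDimensional ℂ H] in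
lemma Cx.ll (X : Cx r D) {e : ι} (h : e ≠ b) {v : H} (hv : v ∈ End.eigenspace (D b) (-1)) :
    r (la e b)⁻¹ (r (la e b)⁻¹ v) = v := by
  have : (la e b)⁻¹ = ep e * rh e b * ep e := ((N0 ι).ε_left e b h).symm
  rw [this]
  simp only [r_mul, ep_ep']
  rw [X.rr b e h _ (keeps_eig (X.dd.2.2.2.2.2.1 e b).symm _ v hv), ep_ep']

omit [FiniteDimensional ℂ H] in
lemma Cx.kk2 (X : Cx r D) {e : ι} (h : e ≠ b) {v : H} (hv : v ∈ End.eigenspace (D b) (-1)) :
    r (kk e b) (r (kk e b) v) = v := by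
  have c : Commute (r (rh e b)) (r (la e b)⁻¹) := (commute_rh_la h h).inv_right.map r
  simp only [kk, r_mul]
  rw [← comm_apply c, X.ll h hv, X.rr b e h v hv]

omit [FiniteDimensional ℂ H] in
lemma Cx.max_eq (X : Cx r D) {e : ι} (h : e ≠ b) :
    End.eigenspace (D b) (-1) ⊓ (r (kk e b)).maxGenEigenspace 1 =
      End.eigenspace (D b) (-1) ⊓ End.eigenspace (r (kk e b)) 1 := by
  refine le_antisymm ?_ (inf_le_inf_left _ End.eigenspace_le_maxGenEigenspace)
  rintro v ⟨hv, hv'⟩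
  refine ⟨hv, ?_⟩
  obtain ⟨k, hk⟩ := (End.mem_maxGenEigenspace _ _ _).1 hv'
  have e1 : r (kk e b) (r (kk e b) v - v) = (-1 : ℂ) • (r (kk e b) v - v) := by
    rw [map_sub, X.kk2 h hv]
    simp
  have e2 : UniOn (r (kk e b)) (Submodule.span ℂ {r (kk e b) v - v}) := by
    refine ⟨k, fun w hw => ?_⟩
    obtain ⟨c, rfl⟩ := Submodule.mem_span_singleton.1 hw
    rw [one_smul] at hk
    have : ((r (kk e b) - 1) ^ k) ((r (kk e b) - 1) v) = 0 := by
      rw [← End.mul_apply, ← pow_succ, pow_succ', End.mul_apply, hk, map_zero]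
    rw [map_smul, show r (kk e b) v - v = (r (kk e b) - 1) v from rfl, this, smul_zero]
  have := e2.eig (Submodule.mem_span_singleton_self _) e1 (by norm_num)
  change v ∈ End.eigenspace _ _
  rw [End.mem_eigenspace_iff, one_smul, ← sub_eq_zero, this]

lemma Cx.rank_Ln (X : Cx r D) {c e : ι} (h : e ≠ c) : finrank ℂ (Ln r D c e) = 1 := by
  have e1 := split_rank (b := c) X.dd.1 X.d4.1
    (Q := End.eigenspace (D c) (-1) ⊓ End.eigenspace (r (kk e c)) 1)
    (fun a => (keeps_eig (X.d4.1 a c) _).inf (keeps_eig (kk_D X.dd.1 X.d4 h.symm a).symm _))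
    inf_le_left _ fun B hB => const_of_move (fun B => finrank ℂ (End.eigenspace (D c) (-1) ⊓
      End.eigenspace (r (kk e c)) 1 ⊓ JE D univ B : Submodule ℂ H)) c
      (fun B f hB hf => rank_le (r_inv' r (rh f c)) fun v hv =>
        ⟨⟨keeps_eig ((mv_rh X.d4 hf).1 c hf).symm _ v hv.1.1,
          keeps_eig ((rh_kk h hf.symm).map r) _ v hv.1.2⟩,
          (mv_rh X.d4 hf).mem_in hf hB hv.2⟩) B hB
  rw [← X.max_eq h, X.dk c e h, X.max_eq h, inf_right_comm,
    inf_eq_right.2 (JE_le_neg (mem_singleton_self c))] at e1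
  have : 0 < 2 ^ (Fintype.card ι - 1) := by positivity
  exact (Nat.eq_of_mul_eq_mul_right this (by rw [one_mul]; exact e1)).symm

lemma Cx.kk_neg (X : Cx r D) {c e : ι} (he : e ≠ c) (hf : f ≠ c) (h : f ≠ e) {v : H}
    (hv : v ∈ Ln r D c f) : r (kk e c) v = -v := by
  obtain ⟨hv, hv'⟩ := mem_Ln.1 hv
  have hY := JE_le_neg (mem_singleton_self c) hv
  have hD : D c v = -v := by rw [End.mem_eigenspace_iff.1 hY, neg_one_smul]
  obtain ⟨s, hs⟩ := (X.sg H (r (kk e c))).1 (uni_kk X.q he)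
  obtain ⟨s', hs'⟩ := (X.sg H (r (kk f c))).1 (uni_kk X.q hf)
  have e1 := LinearMap.congr_fun ((X.dd.2.2.2.1 c e s he hs).2 f s' hf h hs') v
  have e2 : s' v = v := ((X.sg H _).2 s' hs').2.2.2.2.2.1 v hv'
  have e3 : s v = -v := by
    simp only [End.mul_apply, LinearMap.sub_apply, e2, hD, sub_neg_eq_add, map_add,
      LinearMap.zero_apply] at e1
    rw [← two_smul ℂ] at e1
    exact eq_neg_of_add_eq_zero_left ((smul_eq_zero.1 e1).resolve_left two_ne_zero)
  have e4 : s (v + r (kk e c) v) = v + r (kk e c) v :=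
    ((X.sg H _).2 s hs).2.2.2.2.2.1 _ (by rw [map_add, X.kk2 he hY, add_comm])
  rw [map_add, comm_apply hs.2.1, e3, map_neg, ← neg_add] at e4
  exact eq_neg_of_add_eq_zero_right (eq_zero_of_neg e4.symm)

lemma Cx.span (X : Cx r D) (c : ι) : ⨆ e : {e // e ≠ c}, Ln r D c e.1 = JE D univ {c} := by
  have hi : iSupIndep fun e : {e // e ≠ c} => Ln r D c e.1 := by
    refine ((JE_indep (fun f => r (kk f c)) (univ.erase c)).comp
      (f := fun e : {e // e ≠ c} => ⟨(univ.erase c).erase e.1, mem_powerset.2 (erase_subset _ _)⟩)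
      fun e e' h => ?_).mono fun e v hv => mem_JE.2 fun a ha => ?_
    · exact Subtype.ext (erase_injOn _ (by simpa using e.2) (by simpa using e'.2)
        (congrArg Subtype.val h))
    · by_cases h : a = e.1
      · rw [if_neg (by simp [h]), h, (mem_Ln.1 hv).2]
      · rw [if_pos (mem_erase.2 ⟨h, ha⟩)]
        exact X.kk_neg (ne_of_mem_erase ha) e.2 (Ne.symm h) hv
  refine Submodule.eq_of_le_of_finrank_eq (iSup_le fun e => inf_le_left) ?_
  rw [finrank_iSup hi, X.dc, sum_congr rfl fun e _ => X.rank_Ln e.2]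
  simp

lemma Cx.ext (X : Cx r D) (c : ι) (h : ∀ e, e ≠ c → ∀ v ∈ Ln r D c e, u v = u' v) :
    ∀ v ∈ JE D univ {c}, u v = u' v := by
  have k : ⨆ e : {e // e ≠ c}, Ln r D c e.1 ≤ LinearMap.ker (u - u') :=
    iSup_le fun e v hv => LinearMap.mem_ker.2 (sub_eq_zero.2 (h e.1 e.2 v hv))
  rw [X.span c] at k
  exact fun v hv => sub_eq_zero.1 (LinearMap.mem_ker.1 (k hv))

omit [FiniteDimensional ℂ H] in
lemma Cx.ep_H (X : Cx r D) (a : ι) (B : Finset ι) : Keeps (r (ep a)) (JE D univ B) :=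
  keeps_JE B fun x _ => (X.dd.2.2.2.2.2.1 a x).symm

omit [FiniteDimensional ℂ H] in
lemma Cx.ep_Ln (X : Cx r D) {c e : ι} (he : e ≠ c) (a : ι) : Keeps (r (ep a)) (Ln r D c e) := by
  by_cases h : a = c
  · subst h
    intro v hv
    obtain ⟨hv, hv'⟩ := mem_Ln.1 hv
    refine mem_Ln.2 ⟨X.ep_H a _ v hv, ?_⟩
    have e1 : r (ep a * kk e a * ep a) v = v := by
      rw [ep_kk_inv he]
      conv_lhs => rw [← hv', r_ii']
    rw [r_mul, r_mul] at e1
    conv_rhs => rw [← e1, ep_ep']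
  · exact (X.ep_H a _).inf (keeps_eig ((ep_kk he h).map r) _)

omit [FiniteDimensional ℂ H] in
lemma Cx.pm_Ln (X : Cx r D) {c e : ι} (σ : Perm ι) (hc : σ c = c) {v : H}
    (hv : v ∈ Ln r D c e) : r (pm σ) v ∈ Ln r D c (σ e) := by
  obtain ⟨hv, hv'⟩ := mem_Ln.1 hv
  refine mem_Ln.2 ⟨mem_JE.2 fun a _ => ?_, ?_⟩
  · obtain ⟨a, rfl⟩ := σ.surjective a
    have e1 : r (pm σ) (D a v) = D (σ a) (r (pm σ) v) :=
      LinearMap.congr_fun (X.dd.2.2.2.2.1 σ a) v
    rw [← e1, mem_JE.1 hv a (mem_univ _)]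
    have : σ a = c ↔ a = c := by rw [← σ.injective.eq_iff (a := a), hc]
    by_cases h : a = c <;> simp [h, this, hc]
  · have e1 := pm_kk σ e c
    rw [hc] at e1
    rw [← r_mul, ← e1, r_mul, hv']

/-- the sign change at `f` is the scalar `t` on the line `e`. -/
def Sc (r : Rep ι H) (D : ι → End ℂ H) (c e f : ι) (t : ℂ) : Prop :=
  ∀ v ∈ Ln r D c e, r (ep f) v = t • v

omit [FiniteDimensional ℂ H] in
lemma Cx.sc_pm (X : Cx r D) {c e : ι} {t : ℂ} (σ : Perm ι) (hc : σ c = c) (h : Sc r D c e f t) :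
    Sc r D c (σ e) (σ f) t := by
  intro v hv
  have e1 := X.pm_Ln σ⁻¹ (by rw [Perm.inv_eq_iff_eq, hc]) hv
  rw [show σ⁻¹ (σ e) = e from σ.symm_apply_apply e] at e1
  have e2 := congrArg (r (pm σ)) (h _ e1)
  rwa [map_smul, ← r_mul, pm_ep, r_mul, map_inv, r_ii] at e2

lemma Cx.sc_ex (X : Cx r D) {c e : ι} (he : e ≠ c) (f : ι) :
    ∃ t, (t = 1 ∨ t = -1) ∧ Sc r D c e f t := by
  obtain ⟨t, ht⟩ := line_scalar (X.rank_Ln he) (X.ep_Ln he f)
  obtain ⟨v, hv, h0⟩ := line_ne (X.rank_Ln he)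
  refine ⟨t, mul_self_eq_one_iff.1 (smul_left_injective ℂ h0 ?_), ht⟩
  have := ep_ep' r f v
  rw [ht v hv, map_smul, ht v hv, smul_smul] at this
  simpa using this

omit [Fintype ι] [FiniteDimensional ℂ H] in
lemma ex_perm {c e e' f f' : ι} (he : e ≠ c) (he' : e' ≠ c) (hf : f ≠ c) (hf' : f' ≠ c)
    (h : e ≠ f) (h' : e' ≠ f') : ∃ σ : Perm ι, σ c = c ∧ σ e = e' ∧ σ f = f' := by
  have h1 : Equiv.swap e e' f ≠ e' := fun k => h ((Equiv.swap e e').injective (by simp [k]))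
  have h2 : Equiv.swap e e' c = c := swap_apply_of_ne_of_ne he.symm he'.symm
  have h3 : Equiv.swap e e' f ≠ c := fun k => hf ((Equiv.swap e e').injective (k.trans h2.symm))
  refine ⟨Equiv.swap (Equiv.swap e e' f) f' * Equiv.swap e e', ?_, ?_, by simp⟩
  · rw [Perm.mul_apply, h2, swap_apply_of_ne_of_ne h3.symm hf'.symm]
  · rw [Perm.mul_apply, swap_apply_left, swap_apply_of_ne_of_ne h1.symm h']

omit [FiniteDimensional ℂ H] in
lemma Cx.epep (X : Cx r D) {c a : ι} (h : a ≠ c) {v : H} (hv : v ∈ JE D univ {c}) :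
    r (ep c) (r (ep a) v) = r (rh c a) (r (kk a c) (r (rh c a) v)) := by
  have h1 := (mv_rh X.d4 h).mem_out h (by simpa using h) v hv
  have h2 := (mv_la' X.dd.1 X.d4 h.symm).mem_in h.symm (mem_singleton_self c) h1
  have ha := X.ll h.symm (JE_le_neg (b := a) (by simp [mem_symmDiff, h]) h2)
  have hc := X.rr c a h _ (JE_le_neg (b := c) (by simp [mem_symmDiff, h.symm]) h2)
  rw [← r_mul, epep_eq h.symm, kk]
  simp only [r_mul]
  congr 1
  generalize r (la a c)⁻¹ (r (rh c a) v) = w at ha hc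
  conv_lhs => rw [← ha, r_ii, r_ii, ← hc, r_ii']

lemma Cx.main (X : Cx r D) (c : ι) : ∃ s : ℂ, (s = 1 ∨ s = -1) ∧
    (∀ v ∈ JE D univ {c}, r (ep c) v = -s • v) ∧
    ∀ e, e ≠ c → ∀ v ∈ JE D univ {c}, r (ep e) v = -s • r (kk e c) v := by
  obtain ⟨a, e, ha, he, hae⟩ : ∃ a e, a ≠ c ∧ e ≠ c ∧ a ≠ e := by
    have : 1 < (univ.erase c).card := by
      have := X.n
      rw [card_erase_of_mem (mem_univ _), card_univ]
      omega
    obtain ⟨a, ha, e, he, h⟩ := one_lt_card.1 this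
    exact ⟨a, e, ne_of_mem_erase ha, ne_of_mem_erase he, h⟩
  obtain ⟨s₁, p₁, q₁⟩ := X.sc_ex he a
  obtain ⟨s₂, p₂, q₂⟩ := X.sc_ex he e
  obtain ⟨s₃, p₃, q₃⟩ := X.sc_ex he c
  have k₁ : ∀ x y, x ≠ c → y ≠ c → x ≠ y → Sc r D c x y s₁ := fun x y hx hy h => by
    obtain ⟨σ, e1, rfl, rfl⟩ := ex_perm he hx ha hy hae.symm h
    exact X.sc_pm σ e1 q₁
  have k₂ : ∀ x, x ≠ c → Sc r D c x x s₂ := fun x hx => by
    simpa using X.sc_pm (Equiv.swap e x) (swap_apply_of_ne_of_ne he.symm hx.symm) q₂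
  have k₃ : ∀ x, x ≠ c → Sc r D c x c s₃ := fun x hx => by
    simpa [swap_apply_of_ne_of_ne he.symm hx.symm] using
      X.sc_pm (Equiv.swap e x) (swap_apply_of_ne_of_ne he.symm hx.symm) q₃
  have m₃ : ∀ v ∈ JE D univ {c}, r (ep c) v = s₃ • v := X.ext (u' := s₃ • 1) c k₃
  obtain ⟨va, ha1, ha0⟩ := line_ne (X.rank_Ln ha)
  obtain ⟨ve, he1, he0⟩ := line_ne (X.rank_Ln he)
  have n₁₂ : s₂ = -s₁ := by
    by_contra hne
    have e12 : s₂ = s₁ := by
      rcases p₁ with rfl | rfl <;> rcases p₂ with rfl | rfl <;> simp_all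
    have m₁ : ∀ v ∈ JE D univ {c}, r (ep a) v = s₁ • v := X.ext (u' := s₁ • 1) c fun x hx => by
      by_cases h : x = a
      · rw [h, ← e12]
        exact k₂ a ha
      · exact k₁ x a hx ha h
    have m : ∀ w ∈ JE D univ {c}, (r (rh c a) ^ 2) (r (kk a c) w) = (s₁ * s₃) • w := by
      intro w hw
      have hv := (mv_rh' X.dd.1 X.d4 ha).mem_out ha (by simpa using ha) w hw
      have := X.epep ha hv
      rw [r_ii, m₁ _ hv, map_smul, m₃ _ hv, smul_smul] at this
      rw [sq, End.mul_apply, ← this, map_smul, r_ii]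
    have u1 := m va ha1.1
    have u2 := m ve he1.1
    rw [(mem_Ln.1 ha1).2] at u1
    rw [X.kk_neg ha he hae.symm he1, map_neg, neg_eq_iff_eq_neg, ← neg_smul] at u2
    have w2 := uni_eig (uni_rh X.q ha.symm) u2 he0
    rw [uni_eig (uni_rh X.q ha.symm) u1 ha0] at w2
    norm_num at w2
  subst n₁₂
  have m₂ : ∀ x, x ≠ c → ∀ v ∈ JE D univ {c}, r (ep x) v = -s₁ • r (kk x c) v := fun x hx =>
    X.ext (u' := -s₁ • r (kk x c)) c fun y hy v hv => by
      by_cases h : y = x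
      · subst h
        rw [LinearMap.smul_apply, (mem_Ln.1 hv).2, k₂ y hy v hv]
      · rw [LinearMap.smul_apply, X.kk_neg hx hy h hv, k₁ y x hy hx h v hv]
        simp
  have h0 : -s₁ ≠ 0 := by rcases p₁ with rfl | rfl <;> simp
  have kp : Keeps (r (rh c a)) (Ln r D c e) := fun v hv => by
    have h1 := (mv_rh X.d4 ha).mem_out ha (by simpa using ha) v hv.1
    refine mem_Ln.2 ⟨h1, smul_right_injective H h0 ?_⟩
    change -s₁ • _ = -s₁ • _
    have cm : Commute (ep e) (rh c a) := (N0 ι).ε_other c a e ha.symm he hae.symm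
    rw [← m₂ e he _ h1, comm_apply (cm.map r), k₂ e he v hv, map_smul]
  obtain ⟨μ, hμ⟩ := line_scalar (X.rank_Ln he) kp
  have h2 : μ * μ = 1 := uni_eig (uni_rh X.q ha.symm)
    (by rw [sq, End.mul_apply, hμ ve he1, map_smul, hμ ve he1, smul_smul]) he0
  have h3 := X.epep ha he1.1
  rw [q₁ ve he1, map_smul, q₃ ve he1, hμ ve he1, map_smul, X.kk_neg ha he hae.symm he1, map_smul,
    map_neg, hμ ve he1, smul_neg, smul_smul, smul_smul, h2, ← neg_smul] at h3
  have h4 : s₁ * s₃ = -1 := smul_left_injective ℂ he0 h3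
  have h5 : s₃ = -s₁ := by
    rcases p₁ with rfl | rfl
    · simpa using h4
    · simpa using h4
  exact ⟨s₁, p₁, h5 ▸ m₃, m₂⟩

end fin

theorem sg1 (h : SSg) : SG1 := by
  intro ι H _ _ _ _ _ r D hn hd q dd d4 hb
  obtain ⟨n0, n1, n2, n3⟩ := nums hn hd dd d4 hb
  have X : Cx r D := ⟨h, hn, q, dd, d4, n1, n2, n3⟩
  refine ⟨n0, fun c => ⟨n1 c, ?_⟩⟩
  obtain ⟨s, hs, m₃, m₂⟩ := X.main c
  have h0 : -s ≠ 0 := by rcases hs with rfl | rfl <;> simp
  have hs2 : -s * -s = 1 := by rcases hs with rfl | rfl <;> simp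
  have hL : ∀ e, e ≠ c → JE D univ {c} ⊓ End.eigenspace (r (ep e)) (-s) = Ln r D c e := by
    intro e he
    ext v
    rw [mem_Ln, Submodule.mem_inf, End.mem_eigenspace_iff]
    refine and_congr_right fun hv => ?_
    rw [m₂ e he v hv]
    exact (smul_right_injective H h0).eq_iff
  refine ⟨s, hs, m₃, fun e he => by rw [hL e he, X.rank_Ln he], fun e f he hf hef => ?_,
    fun d hd v hv => ?_⟩
  · rw [eq_bot_iff]
    rintro v ⟨hv, hv'⟩
    have h1 : v ∈ Ln r D c f := hL f hf ▸ ⟨hv.1, hv'⟩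
    rw [hL e he] at hv
    exact eq_zero_of_neg ((mem_Ln.1 h1).2.symm.trans (X.kk_neg hf he hef hv))
  · have h1 := (mv_rh' dd.1 d4 hd.symm).mem_in hd.symm (mem_insert_self c {d}) hv
    have h2 : symmDiff ({c, d} : Finset ι) {d} = {c} := by
      ext x
      by_cases hx : x = d <;> simp [mem_symmDiff, hx, hd]
    rw [h2] at h1
    rw [← r_ii r (rh d c) v]
    generalize r (rh d c)⁻¹ v = w at h1
    have h3 : ep c * ep d * rh d c = la d c * (ep c * ep d) := by
      have t2 : ep d * ep c * (ep c * ep d) = 1 := by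
        rw [mul_assoc, ← mul_assoc (ep c), ep_sq, one_mul, ep_sq]
      rw [← epep_rh hd, mul_assoc _ (ep d * ep c), t2, mul_one, (ep_comm c d).eq]
    have h4 : la d c * kk d c = rh d c := by
      rw [kk, ← mul_assoc, ← (commute_rh_la hd hd).eq, mul_inv_cancel_right]
    rw [← r_mul, h3, r_mul, r_mul, m₂ d hd w h1, map_smul,
      m₃ _ (keeps_JE _ (fun x _ => kk_D dd.1 d4 hd.symm x) w h1), smul_smul, hs2, one_smul,
      ← r_mul, h4]

end Pool.Agent.MP_3ce0a0_al.H9
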